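import Pool.Agent.H280.TFComp
import Pool.Agent.H280.CMAcc
import Pool.Agent.H629.AccFinal

/-!
# Cohen-Macaulay binomial edge ideals of graphs of girth four

A finite graph is accessible if its binomial edge ideal is unmixed (in terms of cut sets) and its
cut sets form an accessible set system. We show:

* a graph with Cohen-Macaulay binomial edge ideal is accessible (the theorem of Bolognini, Macchia
  and Strazzanti; the proof is in `Pool.Agent.H280.CMAcc`);
* a triangle-free accessible graph is bipartite, and its induced cycles have length four;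
* hence a graph of girth four with Cohen-Macaulay binomial edge ideal has no induced cycle of
  length at least five.

The part on induced cycles of length at least six (the sections `Translate` and `Cycles`) is from
the hand-in `MP_12e671_al.NoLongInducedCycle`.
-/

set_option autoImplicit false

namespace Pool.Agent.Results.MP_e66ac9_al.GirthFour

universe u v

/-- The binomial edge ideal of `G`: the variables `x_i` and `y_i` are `X (Sum.inl i)` and
`X (Sum.inr i)`, and the generators are `x_i y_j - x_j y_i` for the edges `ij`. -/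
noncomputable def binomialEdgeIdeal (K : Type u) [Field K] {V : Type v} (G : SimpleGraph V) :
    Ideal (MvPolynomial (V ⊕ V) K) :=
  Ideal.span {f | ∃ i j, G.Adj i j ∧ f =
    MvPolynomial.X (Sum.inl i) * MvPolynomial.X (Sum.inr j) -
      MvPolynomial.X (Sum.inl j) * MvPolynomial.X (Sum.inr i)}

/-- A local ring is Cohen-Macaulay: it is Noetherian and has a regular sequence whose length is its
Krull dimension. -/
def IsCohenMacaulayLocalRing (A : Type u) [CommRing A] [IsLocalRing A] : Prop :=
  IsNoetherianRing A ∧ ∃ rs : List A,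
    RingTheory.Sequence.IsRegular A rs ∧ (rs.length : WithBot ℕ∞) = ringKrullDim A

/-- A commutative ring is Cohen-Macaulay: it is Noetherian and all its localizations at prime
ideals are Cohen-Macaulay local rings. -/
def IsCohenMacaulayRing (R : Type u) [CommRing R] : Prop :=
  IsNoetherianRing R ∧ ∀ (p : Ideal R) [p.IsPrime],
    IsCohenMacaulayLocalRing (Localization.AtPrime p)

/-- The binomial edge ideal of `G` over `K` is Cohen-Macaulay. -/
def JIsCM (K : Type u) [Field K] {V : Type v} (G : SimpleGraph V) : Prop :=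
  IsCohenMacaulayRing (MvPolynomial (V ⊕ V) K ⧸ binomialEdgeIdeal K G)

/-- `c_G(T)`: the number of connected components of the subgraph induced on the complement of `T`. -/
noncomputable def compCount {V : Type*} (G : SimpleGraph V) (T : Set V) : ℕ :=
  Nat.card (G.induce Tᶜ).ConnectedComponent

/-- `T` is a cut set: `c_G(T \ {i}) < c_G(T)` for each `i` in `T`. -/
def IsCutSet {V : Type*} (G : SimpleGraph V) (T : Set V) : Prop :=
  ∀ i ∈ T, compCount G (T \ {i}) < compCount G T

/-- Unmixedness of the binomial edge ideal, in terms of cut sets. -/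
def IsUnmixed {V : Type*} (G : SimpleGraph V) : Prop :=
  ∀ T, IsCutSet G T → compCount G T = T.ncard + compCount G ∅

/-- Accessible graphs. -/
def IsAccessible {V : Type*} (G : SimpleGraph V) : Prop :=
  IsUnmixed G ∧ ∀ T, IsCutSet G T → T.Nonempty → ∃ t ∈ T, IsCutSet G (T \ {t})

open H629.AccG

section Translate

variable {V : Type*} {G : SimpleGraph V}

theorem mem_cl_iff {T : Set V} {x : V} (hx : x ∈ Tᶜ) (y : V) :
    y ∈ cl G T x ↔ ∃ h : y ∈ Tᶜ,
      (G.induce Tᶜ).connectedComponentMk ⟨y, h⟩ = (G.induce Tᶜ).connectedComponentMk ⟨x, hx⟩ := by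
  constructor
  · intro h
    have h1 : cl G T x ⊆ {y | ∃ h : y ∈ Tᶜ, (G.induce Tᶜ).connectedComponentMk ⟨y, h⟩ =
        (G.induce Tᶜ).connectedComponentMk ⟨x, hx⟩} := by
      refine cl_sub ?_ ⟨hx, rfl⟩
      rintro u ⟨hu, hux⟩ v ha hv
      refine ⟨hv, ?_⟩
      rw [← hux]
      refine SimpleGraph.ConnectedComponent.sound (SimpleGraph.Adj.reachable ?_)
      exact ha.symm
    exact h1 h
  · rintro ⟨h, he⟩
    have h1 : (G.induce Tᶜ).Reachable ⟨x, hx⟩ ⟨y, h⟩ :=
      (SimpleGraph.ConnectedComponent.exact he).symm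
    obtain ⟨p⟩ := h1
    have key : ∀ (u v : (Tᶜ : Set V)), (G.induce Tᶜ).Walk u v → v.1 ∈ cl G T u.1 := by
      intro u v p
      induction p with
      | nil => exact self_mem G T _
      | @cons u w v ha p ih =>
          exact cl_trans (cl_step (self_mem G T u.1) ha w.2) ih
    exact key _ _ p

theorem compCount_eq (T : Set V) : compCount G T = cc G T := by
  let φ : (G.induce Tᶜ).ConnectedComponent → Set V := fun C =>
    {y | ∃ h : y ∈ Tᶜ, (G.induce Tᶜ).connectedComponentMk ⟨y, h⟩ = C}
  have hφ : ∀ (x : V) (hx : x ∈ Tᶜ), φ ((G.induce Tᶜ).connectedComponentMk ⟨x, hx⟩) =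
      cl G T x := by
    intro x hx
    ext y
    exact (mem_cl_iff hx y).symm
  have hinj : Function.Injective φ := by
    intro C C' h
    induction C using SimpleGraph.ConnectedComponent.ind with
    | h x =>
      have h1 : (x : V) ∈ φ ((G.induce Tᶜ).connectedComponentMk x) := ⟨x.2, rfl⟩
      rw [h] at h1
      obtain ⟨h2, h3⟩ := h1
      exact h3
  have hrange : Set.range φ = comps G T := by
    ext K
    constructor
    · rintro ⟨C, rfl⟩
      induction C using SimpleGraph.ConnectedComponent.ind with
      | h x => exact ⟨x.1, x.2, hφ x.1 x.2⟩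
    · rintro ⟨x, hx, rfl⟩
      exact ⟨_, hφ x hx⟩
  unfold compCount cc
  rw [← hrange, ← Nat.card_range_of_injective hinj, Nat.card_coe_set_eq]

theorem isCutSet_iff (T : Set V) : IsCutSet G T ↔ IsCut G T := by
  unfold IsCutSet IsCut
  simp only [compCount_eq]

theorem isAccessible_acc (h : IsAccessible G) : H629.AccG.Acc G where
  unm := by
    intro T hT
    have := h.1 T ((isCutSet_iff T).2 hT)
    rwa [compCount_eq, compCount_eq] at this
  acc := by
    intro T hT hne
    obtain ⟨t, ht, ht'⟩ := h.2 T ((isCutSet_iff T).2 hT) hne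
    exact ⟨t, ht, (isCutSet_iff _).1 ht'⟩

end Translate

section Cycles

variable {V : Type*} {G : SimpleGraph V}

theorem no_CB' [Finite V] {a b c d s t : V} (h : CB G a b c d s t) (hA : H629.AccG.Acc G) :
    False := by
  let S : Set (SimpleGraph V) := {G' | CB G' a b c d s t ∧ H629.AccG.Acc G'}
  obtain ⟨G', hG'⟩ := Set.Finite.exists_maximal (s := S) (Set.toFinite S) ⟨G, h, hA⟩
  refine no_CB hG'.prop.1 hG'.prop.2 ?_
  intro w hw
  have h1 : Cp G' w ∈ S := ⟨hw, hG'.prop.2.completion w⟩
  exact le_antisymm (hG'.le_of_ge h1 (le_Cp G' w)) (le_Cp G' w)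

/-- the first `m` values of `f` form an induced cycle -/
structure IC (G : SimpleGraph V) (m : ℕ) (f : ℕ → V) : Prop where
  inj : ∀ i j, i < m → j < m → f i = f j → i = j
  adj : ∀ i j, i < j → j < m → (G.Adj (f i) (f j) ↔ j = i + 1 ∨ (i = 0 ∧ j + 1 = m))

theorem IC.step {m : ℕ} {f : ℕ → V} (h : IC G (m + 1) f) :
    IC (Cp G (f 0)) m (fun i => f (i + 1)) where
  inj := by
    intro i j hi hj hij
    have := h.inj (i + 1) (j + 1) (by omega) (by omega) hij
    omega
  adj := by
    intro i j hij hj
    have h0 : ∀ k, k < m → (G.Adj (f 0) (f (k + 1)) ↔ k = 0 ∨ k + 1 = m) := by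
      intro k hk
      rw [h.adj 0 (k + 1) (by omega) (by omega)]
      omega
    have hne : f (i + 1) ≠ f (j + 1) := by
      intro h'
      have := h.inj (i + 1) (j + 1) (by omega) (by omega) h'
      omega
    show (G.Adj (f (i + 1)) (f (j + 1)) ∨ (f (i + 1) ≠ f (j + 1) ∧ G.Adj (f 0) (f (i + 1)) ∧
      G.Adj (f 0) (f (j + 1)))) ↔ _
    rw [h.adj (i + 1) (j + 1) (by omega) (by omega), h0 i (by omega), h0 j hj]
    constructor
    · rintro (h' | ⟨-, h1, h2⟩)
      · omega
      · omega
    · intro h'
      rcases h' with h' | h'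
      · exact Or.inl (Or.inl (by omega))
      · exact Or.inr ⟨hne, Or.inl h'.1, Or.inr h'.2⟩

theorem no_six [Finite V] (hA : H629.AccG.Acc G) {f : ℕ → V} (h : IC G 6 f) : False := by
  have hadj : ∀ i j, i < j → j < 6 → (G.Adj (f i) (f j) ↔ j = i + 1 ∨ (i = 0 ∧ j + 1 = 6)) :=
    h.adj
  have hne : ∀ i j, i < j → j < 6 → f i ≠ f j := by
    intro i j hij hj h'
    have := h.inj i j (by omega) hj h'
    omega
  have a01 : G.Adj (f 0) (f 1) := (hadj 0 1 (by omega) (by omega)).2 (by omega)
  have a12 : G.Adj (f 1) (f 2) := (hadj 1 2 (by omega) (by omega)).2 (by omega)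
  have a23 : G.Adj (f 2) (f 3) := (hadj 2 3 (by omega) (by omega)).2 (by omega)
  have a34 : G.Adj (f 3) (f 4) := (hadj 3 4 (by omega) (by omega)).2 (by omega)
  have a45 : G.Adj (f 4) (f 5) := (hadj 4 5 (by omega) (by omega)).2 (by omega)
  have a05 : G.Adj (f 0) (f 5) := (hadj 0 5 (by omega) (by omega)).2 (by omega)
  have n02 : ¬ G.Adj (f 0) (f 2) := by
    rw [hadj 0 2 (by omega) (by omega)]
    omega
  have n03 : ¬ G.Adj (f 0) (f 3) := by
    rw [hadj 0 3 (by omega) (by omega)]
    omega
  have n04 : ¬ G.Adj (f 0) (f 4) := by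
    rw [hadj 0 4 (by omega) (by omega)]
    omega
  have n13 : ¬ G.Adj (f 1) (f 3) := by
    rw [hadj 1 3 (by omega) (by omega)]
    omega
  have n14 : ¬ G.Adj (f 1) (f 4) := by
    rw [hadj 1 4 (by omega) (by omega)]
    omega
  have n24 : ¬ G.Adj (f 2) (f 4) := by
    rw [hadj 2 4 (by omega) (by omega)]
    omega
  have n25 : ¬ G.Adj (f 2) (f 5) := by
    rw [hadj 2 5 (by omega) (by omega)]
    omega
  have n35 : ¬ G.Adj (f 3) (f 5) := by
    rw [hadj 3 5 (by omega) (by omega)]
    omega
  -- the first completion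
  have key : ∀ {w x y : V} {H : SimpleGraph V}, ¬ H.Adj w y → (Cp H w).Adj x y → H.Adj x y := by
    rintro w x y H hy (h' | ⟨-, -, h'⟩)
    · exact h'
    · exact absurd h' hy
  have key' : ∀ {w x y : V} {H : SimpleGraph V}, ¬ H.Adj w x → (Cp H w).Adj x y → H.Adj x y := by
    rintro w x y H hy (h' | ⟨-, h', -⟩)
    · exact h'
    · exact absurd h' hy
  let G1 := Cp G (f 0)
  have b02 : ¬ G1.Adj (f 2) (f 0) := fun h' => n02 (key' n02 h').symm
  have b35 : ¬ G1.Adj (f 5) (f 3) := fun h' => n35 (key n03 h').symm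
  have b25 : ¬ G1.Adj (f 2) (f 5) := fun h' => n25 (key' n02 h')
  have b24 : ¬ G1.Adj (f 2) (f 4) := fun h' => n24 (key n04 h')
  have b14 : ¬ G1.Adj (f 1) (f 4) := fun h' => n14 (key n04 h')
  have b03 : ¬ G1.Adj (f 0) (f 3) := fun h' => n03 (key n03 h')
  have b04 : ¬ G1.Adj (f 0) (f 4) := fun h' => n04 (key n04 h')
  have c0 : ∀ y, G1.Adj (f 0) y → G.Adj (f 0) y := fun y h' => (Cp_adj_self (f 0)).1 h'
  let G2 := Cp G1 (f 2)
  have hA2 : H629.AccG.Acc G2 := (hA.completion (f 0)).completion (f 2)
  have d0 : ∀ y, G2.Adj (f 0) y → G.Adj (f 0) y := fun y h' => c0 y (key' b02 h')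
  have d2 : ∀ y, G2.Adj (f 2) y → G1.Adj (f 2) y := fun y h' => (Cp_adj_self (f 2)).1 h'
  have hCB : CB G2 (f 5) (f 1) (f 3) (f 4) (f 0) (f 2) := by
    refine ⟨Or.inl (Or.inr ⟨(hne 1 5 (by omega) (by omega)).symm, a05, a01⟩),
      Or.inr ⟨hne 1 3 (by omega) (by omega), Or.inl a12.symm, Or.inl a23⟩,
      Or.inl (Or.inl a34), Or.inl (Or.inl a45),
      fun h' => b35 (key' b25 h'), fun h' => b14 (key b24 h'),
      (hne 3 5 (by omega) (by omega)).symm, hne 1 4 (by omega) (by omega),
      Or.inl (Or.inl a05), Or.inl (Or.inl a01), fun h' => n03 (d0 _ h'), fun h' => n04 (d0 _ h'),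
      hne 0 3 (by omega) (by omega), hne 0 4 (by omega) (by omega),
      Or.inl (Or.inl a12.symm), Or.inl (Or.inl a23), fun h' => b25 (d2 _ h'),
      fun h' => b24 (d2 _ h'), hne 2 5 (by omega) (by omega), hne 2 4 (by omega) (by omega),
      ?_, ?_⟩
    · intro y z hy hz hyz
      exact Or.inl (Or.inr ⟨hyz, d0 y hy, d0 z hz⟩)
    · intro y z hy hz hyz
      exact Or.inr ⟨hyz, d2 y hy, d2 z hz⟩
  exact no_CB' hCB hA2

theorem no_long [Finite V] (m : ℕ) (hA : H629.AccG.Acc G) {f : ℕ → V} (h : IC G (m + 6) f) :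
    False := by
  induction m generalizing G f with
  | zero => exact no_six hA h
  | succ m ih =>
      have h1 : IC G (m + 6 + 1) f := by
        have e : m + 1 + 6 = m + 6 + 1 := by omega
        rwa [e] at h
      exact ih (hA.completion (f 0)) h1.step

end Cycles

/-- An accessible graph has no induced cycle of length six or more. -/
theorem no_cycle_six {V : Type*} [Finite V] (G : SimpleGraph V) (hG : IsAccessible G) (m : ℕ)
    (hm : 6 ≤ m) : IsEmpty (SimpleGraph.cycleGraph m ↪g G) := by
  refine ⟨fun e => ?_⟩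
  obtain ⟨k, rfl⟩ : ∃ k, m = k + 6 := ⟨m - 6, by omega⟩
  have : NeZero (k + 6) := ⟨by omega⟩
  let f : ℕ → V := fun i => e (Fin.ofNat (k + 6) i)
  have hf : ∀ i (hi : i < k + 6), f i = e ⟨i, hi⟩ := by
    intro i hi
    show e _ = e _
    congr 1
    exact Fin.ext (Nat.mod_eq_of_lt hi)
  refine no_long k (isAccessible_acc hG) (f := f) ⟨?_, ?_⟩
  · intro i j hi hj hij
    rw [hf i hi, hf j hj] at hij
    have := e.injective hij
    exact congrArg Fin.val this
  · intro i j hij hj
    have hi : i < k + 6 := by omega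
    rw [hf i hi, hf j hj, e.map_adj_iff, SimpleGraph.cycleGraph_adj']
    have h1 : ((⟨j, hj⟩ : Fin (k + 6)) - ⟨i, hi⟩).val = j - i := by
      rw [Fin.sub_val_of_le (by
        rw [Fin.le_def]
        exact hij.le)]
    have h2 : ((⟨i, hi⟩ : Fin (k + 6)) - ⟨j, hj⟩).val = k + 6 + i - j := by
      rw [Fin.val_sub]
      show (k + 6 - j + i) % (k + 6) = _
      rw [Nat.mod_eq_of_lt (by omega)]
      omega
    rw [h1, h2]
    omega

theorem acc_isAccessible {V : Type*} {G : SimpleGraph V} (h : H629.AccG.Acc G) :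
    IsAccessible G := by
  refine ⟨?_, ?_⟩
  · intro T hT
    rw [compCount_eq, compCount_eq]
    exact h.unm T ((isCutSet_iff T).1 hT)
  · intro T hT hne
    obtain ⟨t, ht, ht'⟩ := h.acc T ((isCutSet_iff T).1 hT) hne
    exact ⟨t, ht, (isCutSet_iff _).2 ht'⟩

/-- A graph whose binomial edge ideal is Cohen-Macaulay is accessible. -/
theorem cm_isAccessible {K : Type u} [Field K] {V : Type v} [Finite V] (G : SimpleGraph V)
    (h : JIsCM K G) : IsAccessible G :=
  acc_isAccessible (H280.BE.acc_of_cm (K := K) h)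

theorem cliqueFree_of_girth {V : Type*} {G : SimpleGraph V} (h : G.girth = 4) :
    G.CliqueFree 3 := by
  classical
  intro s hs
  obtain ⟨a, b, c, hab, hac, hbc, -⟩ := SimpleGraph.is3Clique_iff.1 hs
  have hc : (SimpleGraph.Walk.cons hab (SimpleGraph.Walk.cons hbc
      (SimpleGraph.Walk.cons hac.symm SimpleGraph.Walk.nil))).IsCycle := by
    rw [SimpleGraph.Walk.cons_isCycle_iff]
    refine ⟨?_, ?_⟩
    · simp [hbc.ne, hac.ne.symm, hab.ne.symm]
    · simp [hbc.ne, hac.ne, hab.ne, hab.ne.symm]
  have h1 := SimpleGraph.girth_le_length hc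
  rw [h] at h1
  simp at h1

/-- A finite triangle-free accessible graph is bipartite, each of its connected components with at
least two vertices has exactly two vertices of degree one, and each of its induced cycles has
length four. -/
theorem triangle_free {V : Type v} [Finite V] (G : SimpleGraph V) (hG : IsAccessible G)
    (htf : G.CliqueFree 3) :
    (∃ A : Set V, ∀ x y, G.Adj x y → (x ∈ A ↔ y ∉ A)) ∧
    (∀ C : G.ConnectedComponent, 2 ≤ C.supp.ncard →
      {x | x ∈ C.supp ∧ {y | G.Adj x y}.ncard = 1}.ncard = 2) ∧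
    ∀ m, 3 ≤ m → Nonempty (SimpleGraph.cycleGraph m ↪g G) → m = 4 := by
  have tf : ∀ x y z, G.Adj x y → G.Adj y z → ¬ G.Adj x z := by
    classical
    intro x y z hxy hyz hxz
    exact htf {x, y, z} (SimpleGraph.is3Clique_triple_iff.2 ⟨hxy, hxz, hyz⟩)
  have hA := isAccessible_acc hG
  have hb := H280.TF.bip_of_acc hA tf
  refine ⟨hb, ?_, ?_⟩
  · intro C hC
    induction C using SimpleGraph.ConnectedComponent.ind with
    | h v =>
      have h1 : (G.connectedComponentMk v).supp = cl G ∅ v := by
        ext y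
        rw [SimpleGraph.ConnectedComponent.mem_supp_iff, SimpleGraph.ConnectedComponent.eq]
        constructor
        · rintro ⟨p⟩
          have key : ∀ (u w : V), G.Walk u w → w ∈ cl G ∅ u := by
            intro u w p
            induction p with
            | nil => exact self_mem G _ _
            | cons ha p ih =>
                exact cl_trans (cl_step (self_mem G ∅ _) ha (Set.notMem_empty _)) ih
          exact key v y p.reverse
        · intro hy
          have h2 : cl G ∅ v ⊆ {y | G.Reachable y v} := by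
            refine cl_sub ?_ (SimpleGraph.Reachable.refl v)
            intro u hu w ha _
            exact (SimpleGraph.Adj.reachable ha.symm).trans hu
          exact h2 hy
      rw [h1] at hC ⊢
      exact H280.TF.leaves_of_acc hA tf (cl_mem_comps (Set.notMem_empty v)) hC
  · intro m hm ⟨e⟩
    by_contra hne
    obtain ⟨A, hA2⟩ := hb
    have hodd : ¬ Odd m := by
      intro hodd
      have hcol : (SimpleGraph.cycleGraph m).Colorable 2 := by
        classical
        refine ⟨SimpleGraph.Coloring.mk (fun i => if e i ∈ A then 0 else 1) ?_⟩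
        intro i j hij
        have h1 := hA2 (e i) (e j) (e.map_adj_iff.2 hij)
        by_cases h2 : e i ∈ A
        · simp [h2, h1.1 h2]
        · have h3 : e j ∈ A := by
            by_contra h3
            exact h2 (h1.2 h3)
          simp [h2, h3]
      have h1 := SimpleGraph.chromaticNumber_cycleGraph_of_odd m (by omega) hodd
      have h2 := hcol.chromaticNumber_le
      rw [h1] at h2
      exact absurd h2 (by decide)
    have h6 : 6 ≤ m := by
      rcases Nat.lt_or_ge m 6 with h | h
      · exfalso
        interval_cases m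
        · exact hodd (by decide)
        · exact hne rfl
        · exact hodd (by decide)
      · exact h
    exact (no_cycle_six G hG m h6).false e

/-- **Theorem.** Let `G` be a finite graph and `K` a field. If `J_G` is Cohen-Macaulay and `G` has
girth four, then `G` is bipartite and has no induced cycle of length at least five. More generally,
the first conclusion holds for accessible triangle-free graphs, and `G` is accessible if `J_G` is
Cohen-Macaulay. -/
theorem result (K : Type u) [Field K] {V : Type v} [Finite V] (G : SimpleGraph V) :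
    (JIsCM K G → G.girth = 4 → ∀ m, 5 ≤ m → IsEmpty (SimpleGraph.cycleGraph m ↪g G)) ∧
    (JIsCM K G → IsAccessible G) ∧
    (IsAccessible G → G.CliqueFree 3 →
      (∃ A : Set V, ∀ x y, G.Adj x y → (x ∈ A ↔ y ∉ A)) ∧
      (∀ C : G.ConnectedComponent, 2 ≤ C.supp.ncard →
        {x | x ∈ C.supp ∧ {y | G.Adj x y}.ncard = 1}.ncard = 2) ∧
      ∀ m, 3 ≤ m → Nonempty (SimpleGraph.cycleGraph m ↪g G) → m = 4) := by
  refine ⟨?_, cm_isAccessible G, triangle_free G⟩
  intro hCM hg m hm
  by_contra hne
  rw [not_isEmpty_iff] at hne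
  have h1 := (triangle_free G (cm_isAccessible G hCM) (cliqueFree_of_girth hg)).2.2 m (by omega) hne
  omega

end Pool.Agent.Results.MP_e66ac9_al.GirthFour
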